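import Pool.Agent.Helper687_GP.Gen

/-!
# Extensions by graph products on which the group preserves the vertex groups up to conjugation

`C` is a class of groups with the closure properties `ClosedE C` which contains all groups `F ⋊ ℤ` with `F` free
(`FbC C`). This is known for the class of groups which satisfy the Full Farrell-Jones Conjecture, and for the
torsion-free groups in this class the finitely generated projective modules over the integral group ring are stably
free. `MT C A` means that all mapping tori `A ⋊ ℤ` of the group `A` are in `C`. `PG T A` is the graph product over
a finite graph `T` of groups `A v`, for example the free product or the direct product.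

Let `MT C (A v)` for all vertices `v`. Let `N` be a normal subgroup of `G`, isomorphic to `PG T A`, such that
conjugation with an element of `G` maps every vertex group into a conjugate by an element of `N` of the same
vertex group.

1. If `G ⧸ N` is in `C`, then `G` is in `C`.
2. If moreover `G` is torsion-free, and the finitely generated projective modules over the integral group rings of
   the torsion-free groups in `C` are stably free, this is true for `G`.

Outline of the proof. For a vertex `v`, `G` preserves the kernel `K` of the retraction of `N` to the graph product
over the other vertices, and the kernel `L` of the retraction of `N` to `A v`. By induction, `G ⧸ K` is in `C`, and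
`G ⧸ L` is an extension of `G ⧸ N` by `A v`. The group `K` is a free product of copies of `A v`, and the
intersection of `K` and `L` is the kernel of the homomorphism which identifies the copies, a free group.
-/

set_option autoImplicit false

namespace Pool.Agent.Results.MP_551055_al.VertexGroupActions

open Pool.Agent.Helper687_GP
open Pool.Agent.Helper687_Borel (MT)
open Pool.Agent.Y110.FJ (ClosedE)
open Pool.Agent.R684.FP (FbC)

/-- finitely generated projective modules over the integral group ring of `G` are stably free -/
def StablyFree (G : Type) [Group G] : Prop :=
  ∀ (P : Type) [AddCommGroup P] [Module (MonoidAlgebra ℤ G) P],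
    Module.Finite (MonoidAlgebra ℤ G) P → Module.Projective (MonoidAlgebra ℤ G) P →
    ∃ n m : ℕ, Nonempty ((P × (Fin n → MonoidAlgebra ℤ G)) ≃ₗ[MonoidAlgebra ℤ G]
      (Fin m → MonoidAlgebra ℤ G))

/-- torsion-free groups -/
def TorFree (G : Type) [Group G] : Prop := ∀ g : G, IsOfFinOrder g → g = 1

/-- conjugation with `g` maps the image of every `A v` into a conjugate of it by an element of the image of
`f` -/
def Preserves {V P G : Type} [Group G] (A : V → Type) (i : ∀ v, A v → P) (f : P → G) : Prop :=
  ∀ (g : G) (v : V), ∃ x : P, ∀ a : A v, ∃ b : A v, g * f (i v a) * g⁻¹ = f x * f (i v b) * (f x)⁻¹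

/-- `N` is the image of the graph product of the `A v`, and the conjugacy classes of the vertex groups are
preserved -/
def Acts {V : Type} (T : SimpleGraph V) (A : V → Type) [∀ v, Group (A v)] {G : Type} [Group G]
    (N : Subgroup G) : Prop :=
  ∃ f : PG T A →* G, Function.Injective f ∧ f.range = N ∧
    Preserves A (fun v a => vin T A v a) fun x => f x

/-- extensions of groups in `C` by graph products of groups with mapping tori in `C` -/
def Ext (C : ∀ (G : Type) [Group G], Prop) (G : Type) [Group G] : Prop :=
  ∃ (V : Type) (_ : Finite V) (T : SimpleGraph V) (A : V → Type) (_ : ∀ v, Group (A v))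
    (N : Subgroup G) (_ : N.Normal), (∀ v, MT C (A v)) ∧ Acts T A N ∧ C (G ⧸ N)

theorem result (C : ∀ (G : Type) [Group G], Prop) (hC : ClosedE C) (hF : FbC C) :
    -- 1. membership
    (∀ (G : Type) [Group G], Ext C G → C G) ∧
    -- 2. projective modules
    ((∀ (G : Type) [Group G], TorFree G → C G → StablyFree G) →
      ∀ (G : Type) [Group G], TorFree G → Ext C G → StablyFree G) := by
  have h1 : ∀ (G : Type) [Group G], Ext C G → C G := by
    rintro G _ ⟨V, _, T, A, _, N, hN, hM, ⟨f, hf, hr, hG⟩, hQ⟩
    subst hr
    refine pg_ext_mem hC hF _ V T A le_rfl hM G f hf hQ fun g v => ?_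
    obtain ⟨x, hx⟩ := hG g v
    refine ⟨x, fun a => ?_⟩
    obtain ⟨b, hb⟩ := hx a
    exact ⟨b, by rw [map_mul, map_mul, map_inv]; exact hb⟩
  exact ⟨h1, fun hP G _ hG hE => hP G hG (h1 G hE)⟩

end Pool.Agent.Results.MP_551055_al.VertexGroupActions
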